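import Pool.Agent.Run7.h804.MC.Robust
import Pool.Agent.Run7.h804.Kept.ThreeKindsOfColours

/-!
# Density `5/9` for almost `K_4^3`-free 3-graphs given by coloured arcs and coloured pairs

Let `R` be an oriented graph on `n` vertices whose arcs and non-adjacent pairs are coloured, with any
number of colours; some of the colours of the non-adjacent pairs are cherry colours. The edges of the
3-graph are the triples in which no vertex sends arcs of the same colour to the two others, the three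
pairs are not non-adjacent pairs of the same colour, and no two pairs are non-adjacent pairs of the
same cherry colour. If this 3-graph has at most `δ n^4` copies of `K_4^3`, and there are at most
`δ n^4` induced paths and cycles on four vertices in the cherry colours, then its density is at most
`5/9 + ε`. For every `n` Turán's 3-graph is one of these 3-graphs.

Special cases: the rainbow triangles of an edge-colouring with few properly coloured `K_4` (no arcs,
all colours are cherry colours), the triples which are not monochromatic (no arcs, no cherry colours),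
3-graphs of arc-coloured oriented graphs.
-/

set_option autoImplicit false
open Finset
open scoped Classical

namespace Pool.Agent.Results.MP_f1799f_co.ArcsPairsCherries

variable {n : ℕ}

/-- `x`, `y` are different and non-adjacent, and their colour is a cherry colour (an element of
`K`). -/
def Cherry (R : Fin n → Fin n → Prop) (χ : Fin n → Fin n → ℕ) (K : Set ℕ) (x y : Fin n) : Prop :=
  x ≠ y ∧ ¬ R x y ∧ ¬ R y x ∧ χ x y ∈ K

/-- The 3-graph given by the oriented graph `R`, the colours `col x y` of the arcs `x → y`, the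
colours `χ x y` of the non-adjacent pairs, and the set `K` of the cherry colours. -/
noncomputable def edges (R : Fin n → Fin n → Prop) (col χ : Fin n → Fin n → ℕ) (K : Set ℕ) :
    Finset (Finset (Fin n)) :=
  (univ.powersetCard 3).filter fun e : Finset (Fin n) =>
    ¬ (∃ x ∈ e, ∃ y ∈ e, ∃ z ∈ e, y ≠ z ∧ R x y ∧ R x z ∧ col x y = col x z) ∧
    ¬ (∃ c : ℕ, ∀ x ∈ e, ∀ y ∈ e, x ≠ y → ¬ R x y ∧ χ x y = c) ∧
    ¬ ∃ x ∈ e, ∃ y ∈ e, ∃ z ∈ e, y ≠ z ∧ Cherry R χ K x y ∧ Cherry R χ K x z ∧ χ x y = χ x z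

/-- the copies of `K_4^3` in `H` -/
noncomputable def tetrahedra (H : Finset (Finset (Fin n))) : Finset (Finset (Fin n)) :=
  (univ.powersetCard 4).filter fun Q : Finset (Fin n) => ∀ e ⊆ Q, e.card = 3 → e ∈ H

/-- The induced paths and cycles on four vertices of the cherry colours: the quadruples
`((a, b), (c, d))` of different vertices such that `ab`, `bc`, `cd` are non-adjacent pairs of the same
cherry colour and neither `ac` nor `bd` is one of this colour. -/
noncomputable def paths (R : Fin n → Fin n → Prop) (χ : Fin n → Fin n → ℕ) (K : Set ℕ) :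
    Finset ((Fin n × Fin n) × (Fin n × Fin n)) :=
  univ.filter fun p => p.1.1 ≠ p.2.1 ∧ p.1.1 ≠ p.2.2 ∧ p.1.2 ≠ p.2.2 ∧
    Cherry R χ K p.1.1 p.1.2 ∧ Cherry R χ K p.1.2 p.2.1 ∧ Cherry R χ K p.2.1 p.2.2 ∧
    χ p.1.1 p.1.2 = χ p.1.2 p.2.1 ∧ χ p.2.1 p.2.2 = χ p.1.2 p.2.1 ∧
    ¬ (Cherry R χ K p.1.1 p.2.1 ∧ χ p.1.1 p.2.1 = χ p.1.2 p.2.1) ∧
    ¬ (Cherry R χ K p.1.2 p.2.2 ∧ χ p.1.2 p.2.2 = χ p.1.2 p.2.1)

/-- Turán's number: `f(3s) = s(s-1)(2s-1)`, `f(3s+1) = s²(2s-1)`, `f(3s+2) = s²(2s+1)`. Turán's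
3-graph has `C(n,3) - f(n)` edges. -/
def turan (n : ℕ) : ℕ :=
  if n % 3 = 0 then (n / 3) * (n / 3 - 1) * (2 * (n / 3) - 1)
  else if n % 3 = 1 then (n / 3) ^ 2 * (2 * (n / 3) - 1)
  else (n / 3) ^ 2 * (2 * (n / 3) + 1)

open Pool.Agent.Run7.h804 in
theorem mem_edges {R : Fin n → Fin n → Prop} {col χ : Fin n → Fin n → ℕ} {K : Set ℕ}
    {e : Finset (Fin n)} : e ∈ edges R col χ K ↔ e.card = 3 ∧ ¬ MC.Tri3 R col χ K e := by
  unfold edges
  rw [mem_filter, mem_powersetCard]
  constructor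
  · rintro ⟨⟨_, h1⟩, h2, h3, h4⟩
    refine ⟨h1, ?_⟩
    rintro ((h | h) | h)
    · exact h2 h
    · exact h3 h
    · exact h4 h
  · rintro ⟨h1, h2⟩
    exact ⟨⟨subset_univ _, h1⟩, fun h => h2 (Or.inl (Or.inl h)), fun h => h2 (Or.inl (Or.inr h)),
      fun h => h2 (Or.inr h)⟩

open Pool.Agent.Run7.h804 in
theorem card_edges (R : Fin n → Fin n → Prop) (col χ : Fin n → Fin n → ℕ) (K : Set ℕ) :
    (edges R col χ K).card + (MC.T3 R col χ K).card = n.choose 3 := by
  have h1 := card_filter_add_card_filter_not (s := (univ : Finset (Fin n)).powersetCard 3)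
    (MC.Tri3 R col χ K)
  rw [card_powersetCard, card_univ, Fintype.card_fin] at h1
  have h2 : edges R col χ K =
      (univ.powersetCard 3).filter fun e : Finset (Fin n) => ¬ MC.Tri3 R col χ K e := by
    ext e
    rw [mem_edges, mem_filter, mem_powersetCard]
    constructor
    · rintro ⟨h1, h2⟩
      exact ⟨⟨subset_univ _, h1⟩, h2⟩
    · rintro ⟨⟨_, h1⟩, h2⟩
      exact ⟨h1, h2⟩
  rw [h2]
  have h3 : (MC.T3 R col χ K) = (univ.powersetCard 3).filter (MC.Tri3 R col χ K) := rfl
  rw [h3]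
  omega

open Pool.Agent.Run7.h804 in
theorem tetrahedra_eq (R : Fin n → Fin n → Prop) (col χ : Fin n → Fin n → ℕ) (K : Set ℕ) :
    tetrahedra (edges R col χ K) = MC.unc R col χ K := by
  ext Q
  unfold tetrahedra
  rw [MC.mem_unc, mem_filter, mem_powersetCard]
  constructor
  · rintro ⟨⟨_, h1⟩, h2⟩
    refine ⟨h1, ?_⟩
    rintro ⟨e, heQ, he3, he⟩
    exact (mem_edges.1 (h2 e heQ he3)).2 he
  · rintro ⟨h1, h2⟩
    refine ⟨⟨subset_univ _, h1⟩, ?_⟩
    intro e heQ he3
    rw [mem_edges]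
    exact ⟨he3, fun he => h2 ⟨e, heQ, he3, he⟩⟩

open Pool.Agent.Results.MP_ec0960_co in
/-- **Turán's density for the 3-graphs of coloured arcs and coloured pairs.** -/
theorem result :
    (∀ ε : ℝ, 0 < ε → ∃ δ : ℝ, 0 < δ ∧ ∃ n₀ : ℕ, ∀ n : ℕ, n₀ ≤ n →
      ∀ (R : Fin n → Fin n → Prop) (col χ : Fin n → Fin n → ℕ) (K : Set ℕ),
      (∀ x y, R x y → ¬ R y x) → (∀ x y, χ x y = χ y x) →
      ((tetrahedra (edges R col χ K)).card : ℝ) ≤ δ * (n : ℝ) ^ 4 →
      ((paths R χ K).card : ℝ) ≤ δ * (n : ℝ) ^ 4 →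
      ((edges R col χ K).card : ℝ) ≤ (5 / 9 + ε) * (n.choose 3 : ℝ)) ∧
    (∀ n : ℕ, ∃ (R : Fin n → Fin n → Prop) (col χ : Fin n → Fin n → ℕ) (K : Set ℕ),
      (∀ x y, R x y → ¬ R y x) ∧ (∀ x y, χ x y = χ y x) ∧ tetrahedra (edges R col χ K) = ∅ ∧
      paths R χ K = ∅ ∧ (edges R col χ K).card + turan n = n.choose 3) := by
  constructor
  · intro ε hε
    obtain ⟨δ, hδ, n₀, h⟩ := Pool.Agent.Run7.h804.MC.robust3 ε hε
    refine ⟨δ, hδ, n₀, ?_⟩
    intro n hn R col χ K hR hs h4 hP
    rw [tetrahedra_eq] at h4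
    have h1 := h n hn R col χ K hR hs h4 hP
    have h2 : ((edges R col χ K).card : ℝ) +
        ((Pool.Agent.Run7.h804.MC.T3 R col χ K).card : ℝ) = (n.choose 3 : ℝ) := by
      exact_mod_cast card_edges R col χ K
    linarith
  · intro n
    obtain ⟨R, col, χ, K, ⟨hR, hs, hK, hcov⟩, hc⟩ := ThreeKindsOfColours.attained n
    refine ⟨R, col, χ, K, hR, hs, ?_, ?_, ?_⟩
    · rw [tetrahedra_eq, eq_empty_iff_forall_notMem]
      intro Q hQ
      rw [Pool.Agent.Run7.h804.MC.mem_unc] at hQ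
      obtain ⟨e, he, heQ⟩ := hcov Q hQ.1
      have he' := mem_filter.1 he
      exact hQ.2 ⟨e, heQ, (mem_powersetCard.1 he'.1).2, he'.2⟩
    · rw [eq_empty_iff_forall_notMem]
      rintro ⟨⟨a, b⟩, ⟨c, d⟩⟩ hp
      unfold paths at hp
      rw [mem_filter] at hp
      obtain ⟨_, h1, h2, h3, h4, h5, h6, h7, h8, h9, h10⟩ := hp
      rcases hK a b c d h1 h2 h3 h4 h5 h6 h7 h8 with h | h
      · exact h9 h
      · exact h10 h
    · have h1 := card_edges R col χ K
      have h2 : (Pool.Agent.Run7.h804.MC.T3 R col χ K).card =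
          (ThreeKindsOfColours.hyperedges R col χ K).card := by
        congr 1
        ext e
        rw [Pool.Agent.Run7.h804.MC.mem_T3]
        unfold ThreeKindsOfColours.hyperedges
        rw [mem_filter, mem_powersetCard]
        constructor
        · rintro ⟨h1, h2⟩
          exact ⟨⟨subset_univ _, h1⟩, h2⟩
        · rintro ⟨⟨_, h1⟩, h2⟩
          exact ⟨h1, h2⟩
      have h3 : turan n = ThreeKindsOfColours.f n := rfl
      omega

end Pool.Agent.Results.MP_f1799f_co.ArcsPairsCherries
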