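import Pool.Agent.Run7.h804.RT.Upper
import Pool.Agent.Results.MP_466853_co.ColouredTournaments

/-!
# Turán's bound for the rainbow triangles of an edge-colouring

The edges of the complete graph on `Fin n` are coloured with any number of colours. The rainbow
triangles form a 3-graph, which is `K_4^3`-free if and only if there is no properly coloured
`K_4`. The conjectured bound holds for these 3-graphs if the colour classes contain (almost) no
induced paths and cycles on four vertices; for instance if all the colour classes have `o(n^2)`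
edges. It is robust: it is enough that there are `o(n^4)` properly coloured `K_4`, and `o(n^4)`
such paths and cycles.
-/

set_option autoImplicit false
open Finset
open scoped Classical

namespace Pool.Agent.Results.MP_f1799f_co.RainbowTriangles

/-- The edge-colouring `χ` is proper on `Q`: two edges inside `Q` with a common end have different
colours. (For three vertices: the triangle is rainbow.) -/
def ProperOn {n : ℕ} (χ : Fin n → Fin n → ℕ) (Q : Finset (Fin n)) : Prop :=
  ∀ x ∈ Q, ∀ y ∈ Q, ∀ z ∈ Q, x ≠ y → x ≠ z → y ≠ z → χ x y ≠ χ x z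

/-- the properly coloured sets of `r` vertices: the rainbow triangles for `r = 3`, the properly
coloured `K_4` for `r = 4` -/
noncomputable def proper {n : ℕ} (χ : Fin n → Fin n → ℕ) (r : ℕ) : Finset (Finset (Fin n)) :=
  (univ.powersetCard r).filter fun Q : Finset (Fin n) => ProperOn χ Q

/-- The quadruples `((a, b), (c, d))` of different vertices such that `ab`, `bc`, `cd` have the
same colour and neither `ac` nor `bd` has this colour, in other words: the induced paths `P_4` and
the induced cycles `C_4` of the colour classes (each of them counted a few times). -/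
noncomputable def monoPaths {n : ℕ} (χ : Fin n → Fin n → ℕ) :
    Finset ((Fin n × Fin n) × (Fin n × Fin n)) :=
  univ.filter fun p => p.1.1 ≠ p.1.2 ∧ p.1.1 ≠ p.2.1 ∧ p.1.1 ≠ p.2.2 ∧ p.1.2 ≠ p.2.1 ∧
    p.1.2 ≠ p.2.2 ∧ p.2.1 ≠ p.2.2 ∧ χ p.1.1 p.1.2 = χ p.1.2 p.2.1 ∧
    χ p.2.1 p.2.2 = χ p.1.2 p.2.1 ∧ χ p.1.1 p.2.1 ≠ χ p.1.2 p.2.1 ∧
    χ p.1.2 p.2.2 ≠ χ p.1.2 p.2.1

/-- the colour class `c`, every edge being counted twice -/
noncomputable def colourClass {n : ℕ} (χ : Fin n → Fin n → ℕ) (c : ℕ) : Finset (Fin n × Fin n) :=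
  univ.filter fun p => p.1 ≠ p.2 ∧ χ p.1 p.2 = c

/-- Turán's number `f(n)`: `f(3s) = s(s-1)(2s-1)`, `f(3s+1) = s^2(2s-1)`, `f(3s+2) = s^2(2s+1)`.
Turán's construction has `C(n,3) - f(n)` edges. -/
def turan (n : ℕ) : ℕ :=
  if n % 3 = 0 then (n / 3) * (n / 3 - 1) * (2 * (n / 3) - 1)
  else if n % 3 = 1 then (n / 3) ^ 2 * (2 * (n / 3) - 1)
  else (n / 3) ^ 2 * (2 * (n / 3) + 1)

open Pool.Agent.Run7.h804 in
/-- the exact bound -/
theorem exact_bound {n : ℕ} (χ : Fin n → Fin n → ℕ) (hs : ∀ x y, χ x y = χ y x)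
    (h4 : proper χ 4 = ∅) (hP : monoPaths χ = ∅) :
    (proper χ 3).card + turan n ≤ n.choose 3 := by
  have hP' : RT.monoPaths χ = ∅ := hP
  have h4' : RT.proper χ 4 = ∅ := h4
  have h1 : (RT.lost χ).card = 0 := by
    have := RT.lost_card (χ := χ) hs
    rw [hP', card_empty, mul_zero] at this
    exact pow_eq_zero_iff (two_ne_zero) |>.1 (Nat.le_zero.1 this)
  have h2 : (RT.bad χ).card = 0 := by
    have := RT.bad_card (χ := χ) hs
    rw [h1, h4', card_empty] at this
    omega
  have h3 : turan n ≤ (RT.nonr χ).card := by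
    have hcol : ∀ x y, χ x y < (univ.sup fun p : Fin n × Fin n => χ p.1 p.2) + 2 := by
      intro x y
      have := le_sup (f := fun p : Fin n × Fin n => χ p.1 p.2) (mem_univ (x, y))
      simp only at this
      omega
    have hcov : Pool.Agent.N439.CT.Cov (RT.R χ) χ univ := by
      intro Q _ hQ4
      by_contra hcon
      have : Q ∈ RT.bad χ := RT.mem_bad.2 ⟨hQ4, hcon⟩
      rw [card_eq_zero.1 h2] at this
      simp at this
    have h := Pool.Agent.N439.CT.tournament (RT.R_asymm hs) (RT.R_total hs) _ hcol hcov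
    rw [card_univ, Fintype.card_fin] at h
    refine (show turan n = Pool.Agent.N439.CT.turan n from rfl).le.trans
      (h.trans (card_le_card ?_))
    intro e he
    rw [Pool.Agent.N439.CT.mem_ch, mem_powersetCard] at he
    obtain ⟨⟨_, he2⟩, x, hx, y, hy, z, hz, hyz, h1, h2, h3⟩ := he
    refine mem_filter.2 ⟨mem_powersetCard.2 ⟨subset_univ _, he2⟩, ?_⟩
    intro hp
    exact hp x hx y hy z hz (RT.R_iff.1 h1).1 (RT.R_iff.1 h2).1 hyz h3
  have h4 := RT.card_nonr χ
  have h5 : (proper χ 3).card = (RT.proper χ 3).card := rfl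
  omega

/-- small colour classes contain few paths -/
theorem monoPaths_le {n : ℕ} (χ : Fin n → Fin n → ℕ) (δ : ℝ)
    (h : ∀ c, ((colourClass χ c).card : ℝ) ≤ δ * (n : ℝ) ^ 2) :
    ((monoPaths χ).card : ℝ) ≤ δ * (n : ℝ) ^ 4 := by
  have h1 : (monoPaths χ).card ≤
      ∑ p : Fin n × Fin n, (colourClass χ (χ p.1 p.2)).card := by
    rw [← card_sigma]
    apply card_le_card_of_injOn (fun q => ⟨q.1, q.2⟩)
    · intro q hq
      have hq' := (mem_filter.1 (mem_coe.1 hq)).2
      apply mem_coe.2
      rw [mem_sigma]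
      exact ⟨mem_univ _, mem_filter.2 ⟨mem_univ _, hq'.2.2.2.2.2.1, by
        rw [hq'.2.2.2.2.2.2.2.1, hq'.2.2.2.2.2.2.1]⟩⟩
    · rintro ⟨a, b⟩ _ ⟨a', b'⟩ _ h
      simp only [Sigma.mk.injEq, heq_eq_eq] at h
      obtain ⟨rfl, rfl⟩ := h
      rfl
  calc ((monoPaths χ).card : ℝ) ≤ ∑ p : Fin n × Fin n, ((colourClass χ (χ p.1 p.2)).card : ℝ) := by
        exact_mod_cast h1
    _ ≤ ∑ _p : Fin n × Fin n, δ * (n : ℝ) ^ 2 := sum_le_sum fun p _ => h _
    _ = δ * (n : ℝ) ^ 4 := by
        rw [sum_const, card_univ, Fintype.card_prod, Fintype.card_fin, nsmul_eq_mul]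
        push_cast
        ring

/-- Turán's construction as an edge-colouring: inside the residue classes mod 3 the colour of an
edge is given by its larger end, between the classes by its end in the first of the two classes -/
def turanCol (n : ℕ) (x y : Fin n) : ℕ :=
  if (x : ℕ) % 3 = (y : ℕ) % 3 then 2 * max (x : ℕ) y
  else if (y : ℕ) % 3 = ((x : ℕ) + 1) % 3 then 2 * (x : ℕ) + 1 else 2 * (y : ℕ) + 1

theorem turanCol_symm (n : ℕ) (x y : Fin n) : turanCol n x y = turanCol n y x := by
  unfold turanCol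
  have h := max_comm (x : ℕ) (y : ℕ)
  split_ifs <;> first | omega | rfl

theorem tail (n : ℕ) (x y : Fin n) : turanCol n x y / 2 = (x : ℕ) ∨
    turanCol n x y / 2 = (y : ℕ) := by
  unfold turanCol
  rcases max_choice (x : ℕ) (y : ℕ) with h | h <;> split_ifs <;> omega

theorem fin_ne {n : ℕ} {x y : Fin n} (h : x ≠ y) : (x : ℕ) ≠ y := fun h' => h (Fin.ext h')

open Pool.Agent.Results.MP_466853_co in
theorem arc {n : ℕ} {x y : Fin n} (hxy : x ≠ y) (h : turanCol n x y / 2 = (x : ℕ)) :
    ColouredTournaments.turanR n x y ∧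
      ColouredTournaments.turanCol n x y = turanCol n x y % 2 := by
  have h1 := fin_ne hxy
  unfold turanCol at h
  unfold ColouredTournaments.turanR ColouredTournaments.turanCol turanCol
  rw [Fin.lt_def]
  rcases max_choice (x : ℕ) (y : ℕ) with h2 | h2
  · have h3 := le_max_right (x : ℕ) (y : ℕ)
    split_ifs at h ⊢ <;> first | omega | exact ⟨by omega, by omega⟩
  · split_ifs at h ⊢ <;> first | omega | exact ⟨by omega, by omega⟩

open Pool.Agent.Results.MP_466853_co in
theorem arc' {n : ℕ} {x y : Fin n} (h : ColouredTournaments.turanR n x y) :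
    turanCol n x y = 2 * (x : ℕ) + ColouredTournaments.turanCol n x y := by
  unfold ColouredTournaments.turanR at h
  unfold ColouredTournaments.turanCol turanCol
  rw [Fin.lt_def] at h
  rcases max_choice (x : ℕ) (y : ℕ) with h2 | h2
  · split_ifs <;> omega
  · have h3 := le_max_left (x : ℕ) (y : ℕ)
    split_ifs <;> omega

open Pool.Agent.Results.MP_466853_co in
theorem proper_iff {n : ℕ} (S : Finset (Fin n)) : ¬ ProperOn (turanCol n) S ↔
    ∃ x ∈ S, ∃ y ∈ S, ∃ z ∈ S, y ≠ z ∧ ColouredTournaments.turanR n x y ∧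
      ColouredTournaments.turanR n x z ∧
      ColouredTournaments.turanCol n x y = ColouredTournaments.turanCol n x z := by
  constructor
  · intro h
    unfold ProperOn at h
    push Not at h
    obtain ⟨x, hx, y, hy, z, hz, hxy, hxz, hyz, hc⟩ := h
    have h1 : turanCol n x y / 2 = (x : ℕ) := by
      rcases tail n x y with h1 | h1
      · exact h1
      · rcases tail n x z with h2 | h2
        · rw [hc]
          exact h2
        · exfalso
          rw [hc, h2] at h1
          exact hyz (Fin.ext h1.symm)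
    have h2 : turanCol n x z / 2 = (x : ℕ) := by
      rw [← hc]
      exact h1
    obtain ⟨a1, a2⟩ := arc hxy h1
    obtain ⟨b1, b2⟩ := arc hxz h2
    exact ⟨x, hx, y, hy, z, hz, hyz, a1, b1, by rw [a2, b2, hc]⟩
  · rintro ⟨x, hx, y, hy, z, hz, hyz, a, b, hc⟩ h
    have hxy : x ≠ y := by
      rintro rfl
      exact ColouredTournaments.turan_oriented n _ _ a a
    have hxz : x ≠ z := by
      rintro rfl
      exact ColouredTournaments.turan_oriented n _ _ b b
    apply h x hx y hy z hz hxy hxz hyz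
    rw [arc' a, arc' b, hc]

open Pool.Agent.Results.MP_466853_co in
theorem proper_eq (n : ℕ) : proper (turanCol n) 3 =
    ColouredTournaments.coloured (ColouredTournaments.turanR n)
      (ColouredTournaments.turanCol n) := by
  unfold proper ColouredTournaments.coloured
  apply filter_congr
  intro S _
  rw [← proper_iff, not_not]

theorem turanCol_proper (n : ℕ) : proper (turanCol n) 4 = ∅ := by
  rw [eq_empty_iff_forall_notMem]
  intro S hS
  unfold proper at hS
  rw [mem_filter, mem_powersetCard] at hS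
  obtain ⟨s, hs, hs3, hs'⟩ :=
    Pool.Agent.Results.MP_466853_co.ColouredTournaments.turan_free n S hS.1.2
  rw [← proper_eq] at hs'
  apply hs'
  unfold proper
  rw [mem_filter, mem_powersetCard]
  exact ⟨⟨subset_univ _, hs3⟩, fun x hx y hy z hz => hS.2 x (hs hx) y (hs hy) z (hs hz)⟩

theorem turanCol_paths (n : ℕ) : monoPaths (turanCol n) = ∅ := by
  rw [eq_empty_iff_forall_notMem]
  rintro ⟨⟨a, b⟩, ⟨c, d⟩⟩ h
  unfold monoPaths at h
  rw [mem_filter] at h
  simp only at h
  obtain ⟨_, _, hac, _, hbc, hbd, _, h1, h2, _, _⟩ := h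
  have t1 := tail n a b
  have t2 := tail n b c
  have t3 := tail n c d
  rw [h1] at t1
  rw [h2] at t3
  have e1 := fin_ne hac
  have e2 := fin_ne hbc
  have e3 := fin_ne hbd
  omega

/-- sparse colour classes -/
theorem sparse (ε : ℝ) (hε : 0 < ε) : ∃ δ : ℝ, 0 < δ ∧ ∃ n₀ : ℕ, ∀ n : ℕ, n₀ ≤ n →
    ∀ χ : Fin n → Fin n → ℕ, (∀ x y, χ x y = χ y x) →
    ((proper χ 4).card : ℝ) ≤ δ * (n : ℝ) ^ 4 →
    (∀ c, ((colourClass χ c).card : ℝ) ≤ δ * (n : ℝ) ^ 2) →
    ((proper χ 3).card : ℝ) ≤ (5 / 9 + ε) * (n.choose 3 : ℝ) := by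
  obtain ⟨δ, hδ, n₀, h⟩ := Pool.Agent.Run7.h804.RT.upper ε hε
  exact ⟨δ, hδ, n₀, fun n hn χ hs h4 hc => h n hn χ hs h4 (monoPaths_le χ δ hc)⟩

/-- **Turán's bound for rainbow triangles.** The edges of the complete graph on `n` vertices are
coloured (with any number of colours).

For every `ε > 0` there is a `δ > 0` such that, for all large `n`: if there are at most `δ n^4`
properly coloured `K_4` and the colour classes contain at most `δ n^4` induced `P_4` and `C_4`,
then the number of rainbow triangles is at most `(5/9 + ε) C(n,3)`.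

The bound is attained: for every `n` there is a colouring without properly coloured `K_4` and
without induced `P_4` and `C_4` in the colour classes, with `C(n,3) - f(n)` rainbow triangles. -/
theorem result :
    (∀ ε : ℝ, 0 < ε → ∃ δ : ℝ, 0 < δ ∧ ∃ n₀ : ℕ, ∀ n : ℕ, n₀ ≤ n →
      ∀ χ : Fin n → Fin n → ℕ, (∀ x y, χ x y = χ y x) →
      ((proper χ 4).card : ℝ) ≤ δ * (n : ℝ) ^ 4 →
      ((monoPaths χ).card : ℝ) ≤ δ * (n : ℝ) ^ 4 →
      ((proper χ 3).card : ℝ) ≤ (5 / 9 + ε) * (n.choose 3 : ℝ)) ∧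
    (∀ n : ℕ, ∃ χ : Fin n → Fin n → ℕ, (∀ x y, χ x y = χ y x) ∧ proper χ 4 = ∅ ∧
      monoPaths χ = ∅ ∧ (proper χ 3).card + turan n = n.choose 3) := by
  refine ⟨fun ε hε => Pool.Agent.Run7.h804.RT.upper ε hε, ?_⟩
  intro n
  refine ⟨turanCol n, turanCol_symm n, turanCol_proper n, turanCol_paths n, ?_⟩
  refine le_antisymm (exact_bound _ (turanCol_symm n) (turanCol_proper n) (turanCol_paths n)) ?_
  rw [proper_eq]
  exact Pool.Agent.Results.MP_466853_co.ColouredTournaments.lower n

end Pool.Agent.Results.MP_f1799f_co.RainbowTriangles
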